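import Mathlib

/-!
Virtual maps onto the integers for amalgamated free products.

`Monoid.PushoutI φ` is the amalgamated free product of the groups `A i` over the group `C` with
respect to the homomorphisms `φ i : C → A i`, with the canonical maps `PushoutI.of i` and
`PushoutI.base φ`.
-/

set_option autoImplicit false

namespace Pool.Agent.Results.MP_7107b3_al.AmalgamCriterion

open Monoid Function

universe u v w

/-- Some subgroup of finite index maps onto the integers. -/
def VirtOntoZ (G : Type*) [Group G] : Prop :=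
  ∃ H : Subgroup G, H.FiniteIndex ∧ ∃ f : H →* Multiplicative ℤ, Surjective f

/-- The image of the factor A i in the amalgam is a virtual retract: a subgroup H of finite index
contains it and some homomorphism from H to A i restricts to the identity on A i. -/
def VirtRetract {ι : Type u} {A : ι → Type v} {C : Type w} [∀ i, Group (A i)] [Group C]
    (φ : ∀ i, C →* A i) (i : ι) : Prop :=
  ∃ H : Subgroup (PushoutI φ), H.FiniteIndex ∧ ∃ r : H →* A i,
    ∀ x : A i, ∃ hx : PushoutI.of i x ∈ H, r ⟨PushoutI.of i x, hx⟩ = x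

/-- The image of C in A lies in a proper subgroup of finite index, that is, it is not dense in
the profinite topology of A. -/
def NotDense {A : Type*} {C : Type*} [Group A] [Group C] (φ : C →* A) : Prop :=
  ∃ L : Subgroup A, L.FiniteIndex ∧ L ≠ ⊤ ∧ φ.range ≤ L

/-- Modulo N the image of A i is not contained in the image of C. -/
def Separates {ι : Type u} {A : ι → Type v} {C : Type w} [∀ i, Group (A i)] [Group C]
    (φ : ∀ i, C →* A i) (N : Subgroup (PushoutI φ)) (i : ι) : Prop :=
  ∃ a : A i, ∀ c : C, (PushoutI.base φ c)⁻¹ * PushoutI.of i a ∉ N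

/-- C is not dense in A i for the topology induced by the profinite topology of the amalgam: in
some finite quotient of the amalgam the image of A i is not contained in the image of C. -/
def NotDenseIn {ι : Type u} {A : ι → Type v} {C : Type w} [∀ i, Group (A i)] [Group C]
    (φ : ∀ i, C →* A i) (i : ι) : Prop :=
  ∃ N : Subgroup (PushoutI φ), N.Normal ∧ N.FiniteIndex ∧ Separates φ N i

/-- a homomorphism to the integers which is not trivial can be made surjective -/
lemma surj_of_ne {H : Type*} [Group H] (f : H →* Multiplicative ℤ) (h : H) (hh : f h ≠ 1) :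
    ∃ f' : H →* Multiplicative ℤ, Surjective f' := by
  obtain ⟨d, hd⟩ := Int.subgroup_cyclic (MonoidHom.toAdditiveLeft f).range
  have hmem : ∀ x : H, (f x).toAdd ∈ AddSubgroup.closure ({d} : Set ℤ) := by
    intro x
    rw [← hd]
    exact ⟨Additive.ofMul x, rfl⟩
  have hdvd : ∀ x : H, d ∣ (f x).toAdd := by
    intro x
    have := hmem x
    rw [AddSubgroup.mem_closure_singleton] at this
    obtain ⟨n, hn⟩ := this
    exact ⟨n, by rw [← hn]; simp [mul_comm]⟩
  have hd0 : d ≠ 0 := by
    rintro rfl
    apply hh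
    have := hdvd h
    rw [zero_dvd_iff] at this
    exact this
  have hdr : d ∈ (MonoidHom.toAdditiveLeft f).range := by
    rw [hd]
    exact AddSubgroup.subset_closure rfl
  obtain ⟨x0, hx0⟩ := hdr
  have hx0' : (f (Additive.toMul x0)).toAdd = d := hx0
  refine ⟨{ toFun := fun x => Multiplicative.ofAdd ((f x).toAdd / d)
            map_one' := by simp
            map_mul' := ?_ }, ?_⟩
  · intro x y
    rw [← ofAdd_add]
    congr 1
    rw [map_mul, toAdd_mul, Int.add_ediv_of_dvd_left (hdvd x)]
  · intro n
    refine ⟨(Additive.toMul x0) ^ (Multiplicative.toAdd n), ?_⟩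
    show Multiplicative.ofAdd _ = n
    rw [map_zpow, toAdd_zpow, hx0', smul_eq_mul, Int.mul_ediv_cancel _ hd0]
    rfl

section Perm

variable {F : Type*} [Group F]

/-- right translation of the first coordinate -/
def Tm : F →* Equiv.Perm (F × ℤ) where
  toFun g :=
    { toFun := fun p => (p.1 * g⁻¹, p.2)
      invFun := fun p => (p.1 * g, p.2)
      left_inv := fun p => by simp
      right_inv := fun p => by simp }
  map_one' := by
    ext p <;> simp
  map_mul' g h := by
    ext p <;> simp [mul_assoc]

/-- shift of the second coordinate by a function of the first -/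
def Wm (w : F → ℤ) : Equiv.Perm (F × ℤ) where
  toFun := fun p => (p.1, p.2 + w p.1)
  invFun := fun p => (p.1, p.2 - w p.1)
  left_inv := fun p => by simp
  right_inv := fun p => by simp

@[simp] lemma Tm_apply (g x : F) (n : ℤ) : Tm g (x, n) = (x * g⁻¹, n) := rfl

omit [Group F] in
@[simp] lemma Wm_apply (w : F → ℤ) (x : F) (n : ℤ) : Wm w (x, n) = (x, n + w x) := rfl

omit [Group F] in
@[simp] lemma Wm_inv_apply (w : F → ℤ) (x : F) (n : ℤ) : (Wm w)⁻¹ (x, n) = (x, n - w x) := rfl

end Perm

/-- the dimension count: some integral function on the cosets of C is not the sum of a function on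
the cosets of A and a function on the cosets of B -/
lemma exists_w {F : Type*} [Group F] [Finite F] (C A B : Subgroup F) (hA : C < A) (hB : C < B) :
    ∃ w : F → ℤ, (∀ x, ∀ c ∈ C, w (x * c) = w x) ∧
      ¬ ∃ s t : F → ℤ, (∀ x, ∀ a ∈ A, s (x * a) = s x) ∧ (∀ x, ∀ b ∈ B, t (x * b) = t x) ∧
        ∀ x, w x = s x + t x := by
  classical
  have : Fintype F := Fintype.ofFinite F
  by_contra hcon
  push Not at hcon
  -- the linear map
  let pA : F ⧸ C → F ⧸ A := Quotient.map' id (fun x y h => by
    rw [QuotientGroup.leftRel_apply] at h ⊢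
    exact hA.le h)
  let pB : F ⧸ C → F ⧸ B := Quotient.map' id (fun x y h => by
    rw [QuotientGroup.leftRel_apply] at h ⊢
    exact hB.le h)
  let T : ((F ⧸ A → ℚ) × (F ⧸ B → ℚ)) →ₗ[ℚ] (F ⧸ C → ℚ) :=
    LinearMap.coprod (LinearMap.funLeft ℚ ℚ pA) (LinearMap.funLeft ℚ ℚ pB)
  have hTapp : ∀ (u : F ⧸ A → ℚ) (v : F ⧸ B → ℚ) (x : F),
      T (u, v) (x : F ⧸ C) = u (x : F ⧸ A) + v (x : F ⧸ B) := by
    intro u v x
    rfl
  have hsurj : Surjective T := by
    rw [← LinearMap.range_eq_top, eq_top_iff]
    intro y _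
    have hy : y = ∑ z : F ⧸ C, y z • (Pi.single z (1 : ℚ) : F ⧸ C → ℚ) := by
      ext z
      simp [Finset.sum_apply, Pi.single_apply]
    rw [hy]
    refine Submodule.sum_mem _ (fun z _ => Submodule.smul_mem _ _ ?_)
    -- indicator of z
    obtain ⟨s, t, hs, ht, hst⟩ := hcon (fun x => if (x : F ⧸ C) = z then 1 else 0) (by
      intro x c hc
      have : ((x * c : F) : F ⧸ C) = (x : F ⧸ C) := by
        rw [QuotientGroup.eq]
        simpa using C.inv_mem hc
      simp only [this])
    refine ⟨(fun a => Quotient.liftOn' a (fun x => (s x : ℚ)) ?_,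
      fun b => Quotient.liftOn' b (fun x => (t x : ℚ)) ?_), ?_⟩
    · intro x y h
      rw [QuotientGroup.leftRel_apply] at h
      have := hs x _ h
      simp only [mul_inv_cancel_left] at this
      simp only [this]
    · intro x y h
      rw [QuotientGroup.leftRel_apply] at h
      have := ht x _ h
      simp only [mul_inv_cancel_left] at this
      simp only [this]
    · ext q
      induction q using QuotientGroup.induction_on with
      | H x =>
        rw [hTapp]
        have := hst x
        show (s x : ℚ) + (t x : ℚ) = _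
        rw [← Int.cast_add, ← this, Pi.single_apply]
        split_ifs <;> simp
  have hfA : Module.finrank ℚ (F ⧸ A → ℚ) = A.index := by
    rw [Module.finrank_fintype_fun_eq_card, Subgroup.index, Nat.card_eq_fintype_card]
  have hfB : Module.finrank ℚ (F ⧸ B → ℚ) = B.index := by
    rw [Module.finrank_fintype_fun_eq_card, Subgroup.index, Nat.card_eq_fintype_card]
  have hfC : Module.finrank ℚ (F ⧸ C → ℚ) = C.index := by
    rw [Module.finrank_fintype_fun_eq_card, Subgroup.index, Nat.card_eq_fintype_card]
  have hiA : 2 * A.index ≤ C.index := by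
    have h1 : C.relIndex A * A.index = C.index := Subgroup.relIndex_mul_index hA.le
    have h2 : C.relIndex A ≠ 1 := by
      intro h
      rw [Subgroup.relIndex_eq_one] at h
      exact absurd h (not_le_of_gt hA)
    have h3 : C.relIndex A ≠ 0 := by
      intro h
      rw [h, zero_mul] at h1
      exact C.index_ne_zero_of_finite h1.symm
    have h4 : 2 ≤ C.relIndex A := by omega
    nlinarith [Nat.zero_le A.index]
  have hiB : 2 * B.index ≤ C.index := by
    have h1 : C.relIndex B * B.index = C.index := Subgroup.relIndex_mul_index hB.le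
    have h2 : C.relIndex B ≠ 1 := by
      intro h
      rw [Subgroup.relIndex_eq_one] at h
      exact absurd h (not_le_of_gt hB)
    have h3 : C.relIndex B ≠ 0 := by
      intro h
      rw [h, zero_mul] at h1
      exact C.index_ne_zero_of_finite h1.symm
    have h4 : 2 ≤ C.relIndex B := by omega
    nlinarith [Nat.zero_le B.index]
  have hfin : Module.finrank ℚ ((F ⧸ A → ℚ) × (F ⧸ B → ℚ)) = A.index + B.index := by
    rw [Module.finrank_prod, hfA, hfB]
  have hle : C.index ≤ A.index + B.index := by
    rw [← hfC, ← hfin]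
    exact LinearMap.finrank_le_finrank_of_surjective hsurj
  have heq : Module.finrank ℚ ((F ⧸ A → ℚ) × (F ⧸ B → ℚ)) = Module.finrank ℚ (F ⧸ C → ℚ) := by
    rw [hfin, hfC]; omega
  have hinj : Injective T := (LinearMap.injective_iff_surjective_of_finrank_eq_finrank heq).2 hsurj
  have h0 : T ((fun _ => 1), (fun _ => -1)) = T 0 := by
    rw [map_zero]
    ext q
    induction q using QuotientGroup.induction_on with
    | H x => rw [hTapp]; simp
  have h1 := hinj h0
  have h2 := congrFun (congrArg Prod.fst h1) ((1 : F) : F ⧸ A)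
  simp at h2


section Amalgam

variable {ι : Type u} {A : ι → Type v} {C : Type w} [∀ i, Group (A i)] [Group C]
  {φ : ∀ i, C →* A i}

/-- separation lemma: a finite quotient of the amalgam in which the image of C is proper in the
images of two factors gives a finite index subgroup onto the integers -/
lemma separation {F : Type*} [Group F] [Finite F] (q : PushoutI φ →* F) (hq : Surjective q)
    (i j : ι) (hij : i ≠ j)
    (hi : (q.comp (PushoutI.base φ)).range ≠ (q.comp (PushoutI.of i)).range)
    (hj : (q.comp (PushoutI.base φ)).range ≠ (q.comp (PushoutI.of j)).range) :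
    VirtOntoZ (PushoutI φ) := by
  classical
  have hle : ∀ k, (q.comp (PushoutI.base φ)).range ≤ (q.comp (PushoutI.of k)).range := by
    rintro k _ ⟨c, rfl⟩
    exact ⟨φ k c, by simp [PushoutI.of_apply_eq_base]⟩
  obtain ⟨w, hwC, hw⟩ := exists_w _ _ _ (lt_of_le_of_ne (hle i) hi) (lt_of_le_of_ne (hle j) hj)
  -- the homomorphism to the permutation group
  let fk : ∀ k, A k →* Equiv.Perm (F × ℤ) := fun k =>
    if k = i then (MulAut.conj (Wm w)).toMonoidHom.comp (Tm.comp (q.comp (PushoutI.of k)))
    else Tm.comp (q.comp (PushoutI.of k))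
  let fb : C →* Equiv.Perm (F × ℤ) := Tm.comp (q.comp (PushoutI.base φ))
  have hf : ∀ k, (fk k).comp (φ k) = fb := by
    intro k
    ext c : 1
    by_cases hk : k = i
    · subst hk
      have e1 : (fk k) = (MulAut.conj (Wm w)).toMonoidHom.comp
          (Tm.comp (q.comp (PushoutI.of k))) := by simp [fk]
      rw [e1]
      simp only [MonoidHom.comp_apply, PushoutI.of_apply_eq_base, fb, MulEquiv.coe_toMonoidHom,
        MulAut.conj_apply]
      ext ⟨x, n⟩ : 1
      rw [Equiv.Perm.mul_apply, Equiv.Perm.mul_apply, Wm_inv_apply, Tm_apply, Tm_apply, Wm_apply]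
      have := hwC x _ (inv_mem (⟨c, rfl⟩ : (q.comp (PushoutI.base φ)) c ∈
        (q.comp (PushoutI.base φ)).range))
      simp only [MonoidHom.comp_apply] at this
      rw [this]
      simp
    · have e1 : (fk k) = Tm.comp (q.comp (PushoutI.of k)) := by simp [fk, hk]
      rw [e1]
      simp only [MonoidHom.comp_apply, PushoutI.of_apply_eq_base, fb]
  let f : PushoutI φ →* Equiv.Perm (F × ℤ) := PushoutI.lift fk fb hf
  have fof : ∀ k (a : A k), f (PushoutI.of k a) = fk k a := fun k a => PushoutI.lift_of _ _ _ _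
  have fbase : ∀ c : C, f (PushoutI.base φ c) = Tm (q (PushoutI.base φ c)) := fun c =>
    PushoutI.lift_base _ _ _ _
  have fi : ∀ (a : A i) (x : F) (n : ℤ), f (PushoutI.of i a) (x, n) =
      (x * (q (PushoutI.of i a))⁻¹, n - w x + w (x * (q (PushoutI.of i a))⁻¹)) := by
    intro a x n
    rw [fof]
    have e1 : (fk i) = (MulAut.conj (Wm w)).toMonoidHom.comp
          (Tm.comp (q.comp (PushoutI.of i))) := by simp [fk]
    rw [e1]
    simp only [MonoidHom.comp_apply, MulEquiv.coe_toMonoidHom, MulAut.conj_apply]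
    rw [Equiv.Perm.mul_apply, Equiv.Perm.mul_apply, Wm_inv_apply, Tm_apply, Wm_apply]
  have fne : ∀ k, k ≠ i → ∀ (a : A k) (x : F) (n : ℤ), f (PushoutI.of k a) (x, n) =
      (x * (q (PushoutI.of k a))⁻¹, n) := by
    intro k hk a x n
    rw [fof]
    have e1 : (fk k) = Tm.comp (q.comp (PushoutI.of k)) := by simp [fk, hk]
    rw [e1]
    rfl
  -- affine form
  have aff : ∀ g : PushoutI φ, ∀ (x : F) (n : ℤ),
      f g (x, n) = (x * (q g)⁻¹, n + (f g (x, 0)).2) := by
    intro g
    induction g using PushoutI.induction_on with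
    | of k a =>
      intro x n
      by_cases hk : k = i
      · subst hk
        rw [fi, fi]
        ext <;> simp; ring
      · rw [fne k hk, fne k hk]
        simp
    | base c =>
      intro x n
      rw [fbase]
      simp
    | mul g h hg hh =>
      intro x n
      have e0 : f h (x, 0) = (x * (q h)⁻¹, (f h (x, 0)).2) := by
        have := hh x 0
        rw [zero_add] at this
        exact this
      have e1 : f (g * h) (x, n) = f g (f h (x, n)) := by rw [map_mul]; rfl
      have e2 : f (g * h) (x, 0) = f g (f h (x, 0)) := by rw [map_mul]; rfl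
      rw [e1, e2, hh x n, hg, e0, hg _ (f h (x, 0)).2]
      ext
      · simp [mul_assoc]
      · simp; ring
  -- homomorphisms of the kernel
  let hx : F → (q.ker →* Multiplicative ℤ) := fun x =>
    { toFun := fun g => Multiplicative.ofAdd (f (g : PushoutI φ) (x, 0)).2
      map_one' := by simp
      map_mul' := by
        intro g h
        rw [← ofAdd_add]
        congr 1
        have e2 : f ((g : PushoutI φ) * (h : PushoutI φ)) (x, 0) =
          f (g : PushoutI φ) (f (h : PushoutI φ) (x, 0)) := by rw [map_mul]; rfl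
        have e0 : f (h : PushoutI φ) (x, 0) = (x, (f (h : PushoutI φ) (x, 0)).2) := by
          have := aff h x 0
          rw [zero_add, show q (h : PushoutI φ) = 1 from h.2, inv_one, mul_one] at this
          exact this
        show (f ((g : PushoutI φ) * (h : PushoutI φ)) (x, 0)).2 = _
        rw [e2, e0, aff g x]
        simp [add_comm] }
  have : Finite q.range := inferInstance
  have hfi : q.ker.FiniteIndex := by infer_instance
  by_cases hall : ∀ x (g : q.ker), hx x g = 1
  · exfalso
    -- f is trivial on the kernel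
    have htriv : ∀ g : PushoutI φ, q g = 1 → f g = 1 := by
      intro g hg
      ext ⟨x, n⟩ : 1
      rw [aff g x n, hg]
      have : (f g (x, 0)).2 = 0 := by
        have := hall x ⟨g, hg⟩
        exact this
      rw [this]
      simp
    have hwell : ∀ g h : PushoutI φ, q g = q h → f g = f h := by
      intro g h hgh
      have := htriv (g * h⁻¹) (by simp [hgh])
      rw [map_mul, map_inv, mul_inv_eq_one] at this
      exact this
    choose sec hsec using hq
    let U : F → ℤ := fun x => (f (sec x⁻¹) (1, 0)).2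
    have key : ∀ (g : PushoutI φ) (x : F), (f g (x, 0)).2 = U (x * (q g)⁻¹) - U x := by
      intro g x
      have e1 : f (g * sec x⁻¹) = f (sec (x * (q g)⁻¹)⁻¹) := by
        apply hwell
        rw [map_mul, hsec, hsec]
        simp
      have e2 : f (g * sec x⁻¹) (1, 0) = f g (f (sec x⁻¹) (1, 0)) := by rw [map_mul]; rfl
      have e3 : f (sec x⁻¹) (1, 0) = (x, U x) := by
        rw [aff (sec x⁻¹) 1 0, hsec]
        simp [U]
      have e4 : (f (g * sec x⁻¹) (1, 0)).2 = U (x * (q g)⁻¹) := by rw [e1]
      rw [e2, e3, aff g x (U x)] at e4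
      simp only at e4
      linarith
    apply hw
    refine ⟨fun x => w x - U x, U, ?_, ?_, fun x => by ring⟩
    · rintro x _ ⟨a, rfl⟩
      have h1 := key (PushoutI.of i a⁻¹) x
      rw [fi] at h1
      simp only [map_inv, inv_inv, zero_sub] at h1
      simp only [MonoidHom.comp_apply]
      linarith
    · rintro x _ ⟨b, rfl⟩
      have h1 := key (PushoutI.of j b⁻¹) x
      rw [fne j (Ne.symm hij)] at h1
      simp only [map_inv, inv_inv] at h1
      simp only [MonoidHom.comp_apply]
      linarith
  · push Not at hall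
    obtain ⟨x, g, hg⟩ := hall
    exact ⟨q.ker, hfi, surj_of_ne (hx x) g hg⟩


lemma comap_fi {G : Type*} {B : Type*} [Group G] [Group B] (r : G →* B) (L : Subgroup B)
    (hL : L.FiniteIndex) : (L.comap r).FiniteIndex := by
  constructor
  rw [Subgroup.index_comap]
  exact Subgroup.FiniteIndex.index_ne_zero (H := L.subgroupOf r.range)

/-- pulling back subgroups of the factor along the virtual retraction -/
lemma pull_finiteIndex {G : Type*} {B : Type*} [Group G] [Group B] (H : Subgroup G)
    [H.FiniteIndex] (r : H →* B) (L : Subgroup B) [L.FiniteIndex] :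
    ((L.comap r).map H.subtype).FiniteIndex := by
  have hcf : (L.comap r).FiniteIndex := comap_fi r L inferInstance
  constructor
  rw [Subgroup.index_map_subtype]
  exact mul_ne_zero (Subgroup.FiniteIndex.index_ne_zero) (Subgroup.FiniteIndex.index_ne_zero)

lemma virt_of_factor {i : ι} (h : VirtRetract φ i) (hv : VirtOntoZ (A i)) :
    VirtOntoZ (PushoutI φ) := by
  obtain ⟨H, hH, r, hr⟩ := h
  obtain ⟨L, hL, f, hf⟩ := hv
  refine ⟨(L.comap r).map H.subtype, pull_finiteIndex H r L, ?_⟩
  let g : ((L.comap r).map H.subtype) →* Multiplicative ℤ :=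
    f.comp ((r.comp (Subgroup.inclusion (show (L.comap r).map H.subtype ≤ H from by
      rintro _ ⟨y, _, rfl⟩; exact y.2))).codRestrict L (by
        rintro ⟨_, ⟨y, hy, rfl⟩⟩
        exact hy))
  refine ⟨g, fun n => ?_⟩
  obtain ⟨l, hl⟩ := hf n
  obtain ⟨hx, hrx⟩ := hr (l : A i)
  refine ⟨⟨PushoutI.of i (l : A i), ⟨⟨_, hx⟩, ?_, rfl⟩⟩, ?_⟩
  · show r _ ∈ L
    rw [hrx]
    exact l.2
  · rw [← hl]
    show f _ = f l
    congr 1
    apply Subtype.ext
    exact hrx

/-- a factor which is a virtual retract and in which C is not dense is separated from C by a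
normal subgroup of finite index of the amalgam -/
lemma sep_one {i : ι} (h : VirtRetract φ i) (hd : NotDense (φ i)) :
    ∃ N : Subgroup (PushoutI φ), N.Normal ∧ N.FiniteIndex ∧ Separates φ N i := by
  obtain ⟨H, hH, r, hr⟩ := h
  obtain ⟨L, hL, hLt, hCL⟩ := hd
  have := pull_finiteIndex H r L
  refine ⟨((L.comap r).map H.subtype).normalCore, inferInstance, inferInstance, ?_⟩
  obtain ⟨a, ha⟩ : ∃ a : A i, a ∉ L := by
    by_contra hcon
    push Not at hcon
    exact hLt (eq_top_iff.2 fun x _ => hcon x)
  refine ⟨a, fun c hc => ha ?_⟩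
  have h1 := Subgroup.normalCore_le _ hc
  obtain ⟨y, hy, hye⟩ := h1
  obtain ⟨hx, hrx⟩ := hr (φ i c)⁻¹
  obtain ⟨hx2, hrx2⟩ := hr a
  have hy' : y = ⟨PushoutI.of i (φ i c)⁻¹, hx⟩ * ⟨PushoutI.of i a, hx2⟩ := by
    apply Subtype.ext
    have e : (PushoutI.base φ c)⁻¹ = PushoutI.of (φ := φ) i (φ i c)⁻¹ := by
      rw [map_inv, PushoutI.of_apply_eq_base]
    rw [e] at hye
    exact hye
  have h2 : r y ∈ L := hy
  rw [hy', map_mul, hrx, hrx2] at h2
  have h3 : φ i c ∈ L := hCL ⟨c, rfl⟩
  have := L.mul_mem h3 h2
  simpa using this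

/-- a normal finite index subgroup with a nontrivial homomorphism to the integers -/
lemma core_of {G : Type*} [Group G] (hv : VirtOntoZ G) :
    ∃ N : Subgroup G, N.Normal ∧ N.FiniteIndex ∧ ∃ f : N →* Multiplicative ℤ, ∃ n, f n ≠ 1 := by
  obtain ⟨H, hH, f, hf⟩ := hv
  have hNf : H.normalCore.FiniteIndex := inferInstance
  have hNH : H.normalCore ≤ H := Subgroup.normalCore_le H
  refine ⟨H.normalCore, inferInstance, hNf, f.comp (Subgroup.inclusion hNH), ?_⟩
  by_contra hcon
  push Not at hcon
  obtain ⟨x, hx⟩ := hf (Multiplicative.ofAdd 1)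
  have hxm : ((x : G)) ^ (H.normalCore.index) ∈ H.normalCore := Subgroup.pow_index_mem _ _
  have h1 := hcon ⟨_, hxm⟩
  have h2 : f (x ^ H.normalCore.index) = 1 := h1
  rw [map_pow, hx, ← ofAdd_nsmul] at h2
  have h3 : H.normalCore.index • (1 : ℤ) = 0 := h2
  simp at h3
  exact hNf.index_ne_zero h3

/-- density: if N separates at most the factor i0 from C then a homomorphism of N to the
integers is seen on a factor -/
lemma density (i0 : ι) (N : Subgroup (PushoutI φ)) (hN : N.Normal) (hNf : N.FiniteIndex)
    (fN : N →* Multiplicative ℤ) (hfN : ∃ n, fN n ≠ 1)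
    (hd : ∀ k, k ≠ i0 → ¬ Separates φ N k) :
    ∃ k, VirtOntoZ (A k) := by
  by_contra hcon
  push Not at hcon
  have hfac : ∀ k (a : A k) (g : PushoutI φ) (hg : g * PushoutI.of k a * g⁻¹ ∈ N),
      fN ⟨_, hg⟩ = 1 := by
    intro k a g hg
    by_contra hne
    apply hcon k
    have hcf : (N.comap (PushoutI.of (φ := φ) k)).FiniteIndex := comap_fi _ _ hNf
    let fk : (N.comap (PushoutI.of (φ := φ) k)) →* Multiplicative ℤ :=
      { toFun := fun x => fN ⟨g * PushoutI.of k (x : A k) * g⁻¹, hN.conj_mem _ x.2 g⟩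
        map_one' := by
          rw [← map_one fN]
          congr 1
          apply Subtype.ext
          simp
        map_mul' := by
          intro x y
          rw [← map_mul]
          congr 1
          apply Subtype.ext
          simp [mul_assoc] }
    have ha : a ∈ N.comap (PushoutI.of (φ := φ) k) := by
      have := hN.conj_mem _ hg g⁻¹
      simpa [mul_assoc] using this
    exact ⟨_, hcf, surj_of_ne fk ⟨a, ha⟩ hne⟩
  -- the normal closure
  let S : Set (PushoutI φ) := {g | ∃ k, ∃ a : A k, g = PushoutI.of k a ∧ g ∈ N}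
  let K := Subgroup.normalClosure S
  have hKn : K.Normal := inferInstance
  have hKN : K ≤ N := Subgroup.normalClosure_le_normal (by
    rintro g ⟨k, a, _, hg⟩
    exact hg)
  have hSK : ∀ k (a : A k), PushoutI.of k a ∈ N → PushoutI.of (φ := φ) k a ∈ K := by
    intro k a ha
    exact Subgroup.subset_normalClosure ⟨k, a, rfl, ha⟩
  -- every element is in the factor i0 modulo K
  have hgen : ∀ g : PushoutI φ, ∃ x : A i0, (PushoutI.of i0 x)⁻¹ * g ∈ K := by
    intro g
    induction g using PushoutI.induction_on with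
    | of k a =>
      by_cases hk : k = i0
      · subst hk
        exact ⟨a, by simp [K.one_mem]⟩
      · have hd' := hd k hk
        unfold Separates at hd'
        push Not at hd'
        obtain ⟨c, hc⟩ := hd' a
        have e : PushoutI.of (φ := φ) k ((φ k c)⁻¹ * a) = (PushoutI.base φ c)⁻¹ *
            PushoutI.of k a := by
          rw [map_mul, map_inv, PushoutI.of_apply_eq_base]
        refine ⟨φ i0 c, ?_⟩
        rw [PushoutI.of_apply_eq_base, ← e]
        exact hSK k _ (e ▸ hc)
    | base c =>
      refine ⟨φ i0 c, ?_⟩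
      rw [PushoutI.of_apply_eq_base]
      simp [K.one_mem]
    | mul g h hg hh =>
      obtain ⟨x, hx⟩ := hg
      obtain ⟨y, hy⟩ := hh
      refine ⟨x * y, ?_⟩
      have e : (PushoutI.of (φ := φ) i0 (x * y))⁻¹ * (g * h) =
        (PushoutI.of i0 y)⁻¹ * ((PushoutI.of i0 x)⁻¹ * g) * ((PushoutI.of i0 y)⁻¹)⁻¹ *
          ((PushoutI.of i0 y)⁻¹ * h) := by
        rw [map_mul]; group
      rw [e]
      exact K.mul_mem (hKn.conj_mem _ hx _) hy
  have hNK : N ≤ K := by
    intro n hn
    obtain ⟨x, hx⟩ := hgen n
    have h1 : PushoutI.of (φ := φ) i0 x ∈ N := by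
      have h2 := N.mul_mem hn (N.inv_mem (hKN hx))
      simpa [mul_assoc] using h2
    have h3 := K.mul_mem (hSK i0 x h1) hx
    simpa using h3
  -- the kernel contains K
  have hker : ∀ (g : PushoutI φ) (hg : g ∈ K), fN ⟨g, hKN hg⟩ = 1 := by
    intro g hg
    have h1 : K ≤ (fN.ker).map N.subtype := by
      show Subgroup.closure _ ≤ _
      rw [Subgroup.closure_le]
      intro y hy
      rw [Group.mem_conjugatesOfSet_iff] at hy
      obtain ⟨s, ⟨k, a, rfl, hsN⟩, hsy⟩ := hy
      rw [isConj_iff] at hsy
      obtain ⟨c, rfl⟩ := hsy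
      exact ⟨⟨_, hN.conj_mem _ hsN c⟩, hfac k a c _, rfl⟩
    obtain ⟨y, hy, hye⟩ := h1 hg
    have : (⟨g, hKN hg⟩ : N) = y := Subtype.ext hye.symm
    rw [this]
    exact hy
  obtain ⟨n, hn⟩ := hfN
  exact hn (hker n (hNK n.2))

/-- a normal finite index subgroup which separates two factors from C -/
lemma sep_two (N : Subgroup (PushoutI φ)) (hN : N.Normal) (hNf : N.FiniteIndex) (i j : ι)
    (hij : i ≠ j) (hi : Separates φ N i) (hj : Separates φ N j) : VirtOntoZ (PushoutI φ) := by
  have hfin : Finite (PushoutI φ ⧸ N) := inferInstance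
  have main : ∀ k, Separates φ N k → ((QuotientGroup.mk' N).comp (PushoutI.base φ)).range ≠
      ((QuotientGroup.mk' N).comp (PushoutI.of k)).range := by
    rintro k ⟨a, ha⟩ he
    have h1 : ((QuotientGroup.mk' N).comp (PushoutI.of k)) a ∈
        ((QuotientGroup.mk' N).comp (PushoutI.base φ)).range := by
      rw [he]; exact ⟨a, rfl⟩
    obtain ⟨c, hc⟩ := h1
    have h2 : ((PushoutI.base φ c : PushoutI φ) : PushoutI φ ⧸ N) =
        ((PushoutI.of k a : PushoutI φ) : PushoutI φ ⧸ N) := hc
    rw [QuotientGroup.eq] at h2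
    exact ha c h2
  exact separation (QuotientGroup.mk' N) (QuotientGroup.mk'_surjective _) i j hij
    (main i hi) (main j hj)

/-- if the amalgam is virtually onto the integers then a factor is, or two factors are separated
from C by a normal subgroup of finite index -/
lemma forward [Nonempty ι] (hv : VirtOntoZ (PushoutI φ)) :
    (∃ i, VirtOntoZ (A i)) ∨ ∃ N : Subgroup (PushoutI φ), N.Normal ∧ N.FiniteIndex ∧
      ∃ i j, i ≠ j ∧ Separates φ N i ∧ Separates φ N j := by
  classical
  obtain ⟨N, hN, hNf, f, hf⟩ := core_of hv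
  by_cases h : ∃ i j, i ≠ j ∧ Separates φ N i ∧ Separates φ N j
  · exact Or.inr ⟨N, hN, hNf, h⟩
  · left
    push Not at h
    by_cases h2 : ∃ i, Separates φ N i
    · obtain ⟨i, hi⟩ := h2
      exact density i N hN hNf f hf (fun k hk hk2 => h i k (Ne.symm hk) hi hk2)
    · push Not at h2
      exact density (Classical.arbitrary ι) N hN hNf f hf (fun k _ => h2 k)

/-- a separated factor: C is not dense in its profinite topology -/
lemma notDense_of_separates (N : Subgroup (PushoutI φ)) (hN : N.Normal) (hNf : N.FiniteIndex)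
    (k : ι) (h : Separates φ N k) : NotDense (φ k) := by
  obtain ⟨a, ha⟩ := h
  have hcn : (N.comap (PushoutI.of (φ := φ) k)).Normal := inferInstance
  have hcf : (N.comap (PushoutI.of (φ := φ) k)).FiniteIndex := comap_fi _ _ hNf
  refine ⟨(φ k).range ⊔ N.comap (PushoutI.of (φ := φ) k), Subgroup.finiteIndex_of_le
    (H := N.comap (PushoutI.of (φ := φ) k)) le_sup_right, ?_, le_sup_left⟩
  intro hLt
  have h1 : a ∈ (φ k).range ⊔ N.comap (PushoutI.of (φ := φ) k) := by
    rw [hLt]; trivial
  rw [Subgroup.mem_sup_of_normal_right] at h1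
  obtain ⟨_, ⟨c, rfl⟩, n, hn, hcn2⟩ := h1
  apply ha c
  have e : (PushoutI.base φ c)⁻¹ * PushoutI.of k a = PushoutI.of k n := by
    rw [← hcn2, map_mul, PushoutI.of_apply_eq_base]
    simp
  rw [e]
  exact hn

end Amalgam

/-- The criterion, and its form for virtual retracts. -/
theorem result {ι : Type u} [Nonempty ι] {A : ι → Type v} {C : Type w} [∀ i, Group (A i)]
    [Group C] (φ : ∀ i, C →* A i) :
    ((∀ i, VirtOntoZ (A i) → VirtRetract φ i) →
      (VirtOntoZ (PushoutI φ) ↔
        (∃ i, VirtOntoZ (A i)) ∨ ∃ i j, i ≠ j ∧ NotDenseIn φ i ∧ NotDenseIn φ j)) ∧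
    (∀ i, VirtRetract φ i → (NotDenseIn φ i ↔ NotDense (φ i))) := by
  refine ⟨fun hret => ⟨fun hv => ?_, ?_⟩, fun i hret => ⟨?_, fun hd => ?_⟩⟩
  · rcases forward hv with h | ⟨N, hN, hNf, i, j, hij, hi, hj⟩
    · exact Or.inl h
    · exact Or.inr ⟨i, j, hij, ⟨N, hN, hNf, hi⟩, ⟨N, hN, hNf, hj⟩⟩
  · rintro (⟨i, hi⟩ | ⟨i, j, hij, ⟨N1, hn1, hf1, a, ha⟩, ⟨N2, hn2, hf2, b, hb⟩⟩)
    · exact virt_of_factor (hret i hi) hi
    · exact sep_two (N1 ⊓ N2) inferInstance inferInstance i j hij
        ⟨a, fun c hc => ha c hc.1⟩ ⟨b, fun c hc => hb c hc.2⟩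
  · rintro ⟨N, hN, hNf, h⟩
    exact notDense_of_separates N hN hNf i h
  · exact sep_one hret hd

end Pool.Agent.Results.MP_7107b3_al.AmalgamCriterion
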