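import Pool.Agent.Work.MP_7107b3_al.SE.MainG

/-!
# Amalgams with a Seifert fibred piece are virtually onto the integers

`VirtZ G`: some subgroup of finite index of `G` maps onto the integers. `Cyc p` is the free product
`<x_1, .., x_k | x_i ^ p_i>` of cyclic groups and `prd p = x_1 ⋯ x_k`. `Monoid.PushoutI φ` is the pushout
`K true *_C K false`.

(1) If `e : K true → Cyc p` is onto and maps `C` into the group generated by `x_1 ⋯ x_k`, and
`∑ (1 - 1 / p_i) ≥ 2`, then the pushout is virtually onto the integers, for every `K false`.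
(2) The same with a homomorphism `ψ` from `K false` onto the cyclic group of order `N` which is
compatible with `x_1 ⋯ x_k = t ^ m`, `N` not dividing `m`, if `∑ (1 - 1 / p_i) + (1 - 1 / N) ≥ 2`.
-/

set_option autoImplicit false

open Pool.Agent.Work.MP_7107b3_al.SE

theorem Pool.Agent.Results.MP_7107b3_al.SeifertPiece.result :
    ∀ (C : Type) [Group C] (K : Bool → Type) [∀ b, Group (K b)] (φ : ∀ b, C →* K b) (k : ℕ)
      (p : Fin k → ℕ) (e : K true →* Cyc p), (∀ i, 2 ≤ p i) → Function.Surjective e →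
      ((∀ c, ∃ j : ℤ, e (φ true c) = prd p ^ j) → (2 : ℚ) ≤ ∑ i, (1 - 1 / (p i : ℚ)) →
        VirtZ (Monoid.PushoutI φ)) ∧
      ∀ (N : ℕ) (m : ℤ) (ψ : K false →* Multiplicative (ZMod N)), 2 ≤ k → 1 ≤ N → ¬ (N : ℤ) ∣ m →
        Function.Surjective ψ →
        (∀ c, ∃ j : ℤ, e (φ true c) = prd p ^ j ∧
          ψ (φ false c) = Multiplicative.ofAdd ((m * j : ℤ) : ZMod N)) →
        (2 : ℚ) ≤ ∑ i, (1 - 1 / (p i : ℚ)) + (1 - 1 / (N : ℚ)) →
        VirtZ (Monoid.PushoutI φ) :=
  fun C _ K _ φ k p e hp he => ⟨fun hC hnum => main1 C K φ k p e hp he hC hnum,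
    fun N m ψ hk hN hm hψ hC hnum => main2 C K φ k p e N m ψ hk hp hN hm he hψ hC hnum⟩
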